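import Mathlib
import Pool.Agent.Lib.MP_9d59e9_gt.KO.Defs
import Pool.Agent.Lib.MP_9d59e9_gt.KO3.Defs
import Pool.Agent.Lib.MP_9d59e9_gt.KS.AllO

/-!
# MP_9d59e9_gt: Riemannian KS manifolds of order 4 with nonsingular curvature operator

Let `n ≥ 5` and let `g` be a smooth Riemannian metric on a connected open set `Ω ⊆ ℝⁿ` such that
`∇⁴R + t¹ ⊗ ∇³R + t² ⊗ ∇²R + t³ ⊗ ∇R + t⁴ ⊗ R = 0` on `Ω` for some smooth covariant tensor fields
`t¹`, `t²`, `t³`, `t⁴`, arbitrary otherwise.  If the curvature operator is injective at one point of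
`Ω`, then `∇R = 0` on `Ω`.

The definitions are in `Pool.Agent.Lib.MP_9d59e9_gt.KO.Defs`, part 1, and in
`Pool.Agent.Lib.MP_9d59e9_gt.KO3.Defs`, part 1 (`NonSing`).
-/

set_option autoImplicit false

namespace Pool.Agent.Lib.MP_9d59e9_gt.Old.OrderFour

open scoped BigOperators ContDiff
open Pool.Agent.Lib.MP_9d59e9_gt.KO Pool.Agent.Lib.MP_9d59e9_gt.KO3

/-- Riemannian KS manifolds of order 4 and dimension at least 5 with a point of injective curvature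
operator are locally symmetric. -/
theorem result {n : ℕ} (hn : 5 ≤ n) (g : Pt n → Matrix (Fin n) (Fin n) ℝ) (Ω : Set (Pt n))
    (hg : IsMetricOn g Ω) (hΩ : IsPreconnected Ω) (t : ℕ → List (Fin n) → Pt n → ℝ)
    (ht : ∀ m l, ContDiffOn ℝ ∞ (t m l) Ω)
    (hKS : ∀ x ∈ Ω, KSAt g 4 (fun m l => t m l x) x)
    (p : Pt n) (hp : p ∈ Ω) (hns : NonSing g p) :
    ∀ x ∈ Ω, ∀ a c b m q, nablaR g 1 a [c, b, m, q] x = 0 :=
  Pool.Agent.Lib.MP_9d59e9_gt.KS.sFinF hn g Ω hg hΩ t ht hKS p hp hns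

end Pool.Agent.Lib.MP_9d59e9_gt.Old.OrderFour
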